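import Pool.Agent.Q97.SuperADPBridge

set_option autoImplicit false

/-!
# The super alternative Daugavet property and unconditional bases: real or complex scalars
-/

namespace Pool.Agent.Results.MP_45e0c4_an.NoUnconditionalBasis

/-- `W` is a relatively weakly open subset of the closed unit ball of `X`. -/
def RelWeaklyOpen (𝕜 : Type*) [RCLike 𝕜] {X : Type*} [NormedAddCommGroup X] [NormedSpace 𝕜 X]
    (W : Set X) : Prop :=
  ∃ U : Set (WeakSpace 𝕜 X), IsOpen U ∧ W = {y : X | ‖y‖ ≤ 1 ∧ toWeakSpace 𝕜 X y ∈ U}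

/-- The super alternative Daugavet property: for every `x` of norm one and every relatively weakly
open subset `W` of the unit ball that meets the unit sphere, the supremum of `‖x + θ y‖` over
`y ∈ W` and scalars `θ` of modulus one is `2`. -/
def SuperADP (𝕜 : Type*) [RCLike 𝕜] (X : Type*) [NormedAddCommGroup X] [NormedSpace 𝕜 X] : Prop :=
  ∀ x : X, ‖x‖ = 1 → ∀ W : Set X, RelWeaklyOpen 𝕜 W → (∃ v ∈ W, ‖v‖ = 1) →
    IsLUB {r : ℝ | ∃ y ∈ W, ∃ θ : 𝕜, ‖θ‖ = 1 ∧ r = ‖x + θ • y‖} 2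

theorem basicADP_of_superADP {𝕜 : Type*} [RCLike 𝕜] {X : Type*} [NormedAddCommGroup X]
    [NormedSpace 𝕜 X] (hinf : ¬ FiniteDimensional 𝕜 X) (h : SuperADP 𝕜 X) :
    Q97.SuperADP.BasicADP 𝕜 X := by
  intro x hx I u δ κ hu hδ hκ
  set U : Set (WeakSpace 𝕜 X) :=
    {z : WeakSpace 𝕜 X | ∀ ψ ∈ I, ‖ψ ((toWeakSpace 𝕜 X).symm z - u)‖ < δ} with hU
  have hUo : IsOpen U := Q97.isOpen_weak_basic I u δ
  set W : Set X := {y : X | ‖y‖ ≤ 1 ∧ toWeakSpace 𝕜 X y ∈ U} with hW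
  obtain ⟨v, hv1, hvI⟩ := Q97.SuperADP.exists_sphere_mem hinf I u hu
  have hvW : v ∈ W := by
    refine ⟨hv1.le, fun ψ hψ => ?_⟩
    change ‖ψ (v - u)‖ < δ
    rw [hvI ψ hψ, norm_zero]
    exact hδ
  have hlub := h x hx W ⟨U, hUo, rfl⟩ ⟨v, hvW, hv1⟩
  obtain ⟨_, ⟨y, hy, θ, hθ, rfl⟩, hlt, -⟩ := hlub.exists_between (show 2 - κ < 2 by linarith)
  exact ⟨y, θ, hy.1, fun ψ hψ => hy.2 ψ hψ, hθ, hlt⟩

/-- **Theorem.** Let `X` be an infinite-dimensional real or complex Banach space with the super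
alternative Daugavet property. Then `X` has no unconditional Schauder basis; more generally, `X` is
not isomorphic to a subspace of a Banach space with an unconditional basis (of any
cardinality). -/
theorem result (𝕜 : Type*) [RCLike 𝕜] (X : Type*) [NormedAddCommGroup X] [NormedSpace 𝕜 X]
    [CompleteSpace X] (hinf : ¬ FiniteDimensional 𝕜 X) (h : SuperADP 𝕜 X) :
    IsEmpty (UnconditionalSchauderBasis ℕ 𝕜 X) ∧
    ∀ (Z : Type*) [NormedAddCommGroup Z] [NormedSpace 𝕜 Z] [CompleteSpace Z] (β : Type*)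
      (_ : UnconditionalSchauderBasis β 𝕜 Z) (J : X →L[𝕜] Z) (c : ℝ),
      ¬ ∀ x, ‖x‖ ≤ c * ‖J x‖ := by
  obtain ⟨v, hv, -⟩ := Q97.SuperADP.exists_sphere_mem hinf ∅ (0 : X) (by simp)
  have hB := basicADP_of_superADP hinf h
  constructor
  · constructor
    intro b
    exact Q97.SuperADP.no_embedding hB ⟨v, hv⟩ b (ContinuousLinearMap.id 𝕜 X) 1
      (fun x => by simp)
  · intro Z _ _ _ β b J c hc
    exact Q97.SuperADP.no_embedding hB ⟨v, hv⟩ b J c hc

end Pool.Agent.Results.MP_45e0c4_an.NoUnconditionalBasis
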